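import Mathlib
import Pool.Agent.R578.SE.Three

/-!
# Real-rootedness of signed Eulerian polynomials of types A, B, D (MP_de1c22_co)

All three parts of the question have a positive answer:

* `polA n ±1` (descent polynomials of the even and the odd permutations) are real-rooted for `n ≥ 2`
  (this part follows from the result of the starting tree for MP_977251_co);
* `polB n ±1` are real-rooted for all `n ≥ 1`: `2 B_n^±` is the numerator of
  `∑ ((2k+1)^n ± 1) t^k`, and `(2k+1)^n ± 1 = ∑_j (n choose j) (1 ± (-1)^j) k^j (k+1)^(n-j)` is a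
  nonnegative combination of polynomials whose numerators have a common interleaver;
* `polD n ±1` are real-rooted for all `n ≥ 3`: with `A = A_(n-1)` the Eulerian polynomial and
  `G(x) = x(1-x²)A'(x) + (1+(n-1)x²)A(x)`, twice `D_n^±(x²)` is the even part of
  `(1+x)^n (G(x) ± c(x))`, where `c(x) = (1-x)^n` or `(1+x)(1-x)^(n-1)`; one shows
  `|G(x)| > |c(x)|` for `Re x > 0`, `n ≥ 4`, and concludes by the Hermite-Biehler argument.

The type B counting identities were formalised by helper391, the type D reductions by helper980.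
-/

namespace Pool.Agent.Results.MP_de1c22_co.SignedEulerianRealRooted

open Pool.Agent.R578.SE

/-- (a) type A for all `n ≥ 2` (in particular all `n ≥ 4`, `n ≡ 0, 1 mod 4`), (b) type B for all
`n ≥ 1` (in particular all even `n ≥ 2`), (c) type D for all `n ≥ 3`. -/
theorem result :
    (∀ n : ℕ, 2 ≤ n → ∀ e : ℤˣ, RealRooted (polA n e)) ∧
    (∀ n : ℕ, 1 ≤ n → ∀ e : ℤˣ, RealRooted (polB n e)) ∧
    (∀ n : ℕ, 3 ≤ n → ∀ e : ℤˣ, RealRooted (polD n e)) :=
  ⟨polA_real, polB_real, polD_all⟩

end Pool.Agent.Results.MP_de1c22_co.SignedEulerianRealRooted
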